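import Mathlib
import Pool.Agent.R838.KS.Stm

set_option autoImplicit false

/-! # Project KS (helper838), package BC: Borel combinatorics of aperiodic relations -/

namespace Pool.Agent.U958.KS.BC

open Set

variable {X : Type} [MeasurableSpace X]

/-- the least index -/
theorem least (D : ℕ → Set X) (hD : ∀ k, MeasurableSet (D k)) :
    ∃ k : X → ℕ, Measurable k ∧ (∀ x, (∃ i, x ∈ D i) → x ∈ D (k x)) ∧
      ∀ x i, x ∈ D i → k x ≤ i := by
  classical
  have hU : MeasurableSet (⋃ i, D i) := MeasurableSet.iUnion hD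
  have hp : ∀ x, ∃ N, x ∈ D N ∨ x ∉ ⋃ i, D i := by
    intro x
    by_cases h : x ∈ ⋃ i, D i
    · obtain ⟨i, hi⟩ := mem_iUnion.1 h
      exact ⟨i, Or.inl hi⟩
    · exact ⟨0, Or.inr h⟩
  refine ⟨fun x => Nat.find (hp x), measurable_find hp fun k => (hD k).union hU.compl, ?_, ?_⟩
  · rintro x ⟨i, hi⟩
    rcases Nat.find_spec (hp x) with h | h
    · exact h
    · exact absurd (mem_iUnion.2 ⟨i, hi⟩) h
  · intro x i hi
    exact Nat.find_min' (hp x) (Or.inl hi)

theorem meas_diag {s : ℕ → X → X} (hs : ∀ n, Measurable (s n)) {k : X → ℕ}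
    (hk : Measurable k) : Measurable fun x => s (k x) x := by
  have h : Measurable fun p : X × ℕ => s p.2 p.1 := measurable_from_prod_countable_left hs
  exact h.comp (measurable_id.prodMk hk)

/-- points matched before stage `n` -/
def N (s : ℕ → X → X) (A : Set X) : ℕ → Set X
  | 0 => ∅
  | n + 1 => N s A n ∪ {x | x ∈ A ∧ s n x ∈ A ∧ s n x ≠ x ∧ x ∉ N s A n ∧ s n x ∉ N s A n}

/-- points matched at stage `n` -/
def M (s : ℕ → X → X) (A : Set X) (n : ℕ) : Set X :=
  {x | x ∈ A ∧ s n x ∈ A ∧ s n x ≠ x ∧ x ∉ N s A n ∧ s n x ∉ N s A n}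

theorem N_succ (s : ℕ → X → X) (A : Set X) (n : ℕ) : N s A (n + 1) = N s A n ∪ M s A n := rfl

theorem N_mono (s : ℕ → X → X) (A : Set X) {m n : ℕ} (h : m ≤ n) : N s A m ⊆ N s A n := by
  induction n, h using Nat.le_induction with
  | base => exact Subset.rfl
  | succ n _ ih => exact ih.trans (by rw [N_succ]; exact subset_union_left)

theorem N_sub (s : ℕ → X → X) (A : Set X) (n : ℕ) : N s A n ⊆ ⋃ i, M s A i := by
  induction n with
  | zero => exact empty_subset _
  | succ n ih =>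
    rw [N_succ]
    exact union_subset ih (subset_iUnion _ n)

theorem meas_ne {s t : X → X} {b : X → ℝ} (hb : Measurable b) (hbi : Function.Injective b)
    (hs : Measurable s) (ht : Measurable t) : MeasurableSet {x | s x = t x} := by
  have : {x | s x = t x} = {x | b (s x) = b (t x)} := by
    ext x
    exact ⟨fun h => congrArg b h, fun h => hbi h⟩
  rw [this]
  exact measurableSet_eq_fun (hb.comp hs) (hb.comp ht)

theorem meas_N {s : ℕ → X → X} {b : X → ℝ} (hb : Measurable b) (hbi : Function.Injective b)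
    (hs : ∀ n, Measurable (s n)) {A : Set X} (hA : MeasurableSet A) (n : ℕ) :
    MeasurableSet (N s A n) ∧ MeasurableSet (M s A n) := by
  have key : ∀ n, MeasurableSet (N s A n) → MeasurableSet (M s A n) := by
    intro n hn
    exact hA.inter (((hs n) hA).inter ((meas_ne hb hbi (hs n) measurable_id).compl.inter
      (hn.compl.inter ((hs n) hn.compl))))
  induction n with
  | zero => exact ⟨MeasurableSet.empty, key 0 MeasurableSet.empty⟩
  | succ n ih =>
    have h := ih.1.union ih.2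
    rw [← N_succ] at h
    exact ⟨h, key _ h⟩

theorem step {s : ℕ → X → X} {b : X → ℝ} (hb : Measurable b) (hbi : Function.Injective b)
    (hs : ∀ n, Measurable (s n)) (hinv : ∀ n x, s n (s n x) = x)
    {E : X → X → Prop} (hE : Equivalence E) (hsE : ∀ x y, E x y ↔ ∃ n, s n x = y)
    (A : Set X) (hA : MeasurableSet A) (hinf : ∀ x ∈ A, {y | y ∈ A ∧ E x y}.Infinite) :
    ∃ (A' : Set X) (r : X → X), MeasurableSet A' ∧ Measurable r ∧ A' ⊆ A ∧
      (∀ x ∈ A, r x ∈ A' ∧ E x (r x)) ∧ (∀ y ∈ A', {x | x ∈ A ∧ r x = y}.Finite) ∧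
      ∀ y ∈ A', ∃ x, x ∈ A ∧ x ∉ A' ∧ r x = y := by
  classical
  have hM : ∀ n, MeasurableSet (M s A n) := fun n => (meas_N hb hbi hs hA n).2
  obtain ⟨k1, hk1, hk1D, hk1m⟩ := least (M s A) hM
  -- disjointness
  have hdis : ∀ i j x, x ∈ M s A i → x ∈ M s A j → i = j := by
    have h1 : ∀ i j x, i < j → x ∈ M s A i → x ∈ M s A j → False := by
      intro i j x hij hi hj
      have h2 : x ∈ N s A (i + 1) := by rw [N_succ]; exact Or.inr hi
      exact hj.2.2.2.1 (N_mono s A hij h2)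
    intro i j x hi hj
    rcases lt_trichotomy i j with h | h | h
    · exact (h1 i j x h hi hj).elim
    · exact h
    · exact (h1 j i x h hj hi).elim
  have hk1u : ∀ x i, x ∈ M s A i → k1 x = i := fun x i hi => hdis _ _ x (hk1D x ⟨i, hi⟩) hi
  have hMinv : ∀ n x, x ∈ M s A n → s n x ∈ M s A n := by
    rintro n x ⟨h1, h2, h3, h4, h5⟩
    refine ⟨h2, ?_, ?_, h5, ?_⟩
    · rw [hinv]; exact h1
    · rw [hinv]; exact fun h => h3 h.symm
    · rw [hinv]; exact h4
  obtain ⟨U, hU⟩ : ∃ U : Set X, U = ⋃ i, M s A i := ⟨_, rfl⟩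
  have hUm : MeasurableSet U := by rw [hU]; exact MeasurableSet.iUnion hM
  have hUA : U ⊆ A := by
    intro x hx
    rw [hU] at hx
    obtain ⟨i, hi⟩ := mem_iUnion.1 hx
    exact hi.1
  -- at most one unmatched point in every class
  have hone : ∀ x y, x ∈ A → y ∈ A → E x y → x ≠ y → x ∈ U ∨ y ∈ U := by
    intro x y hx hy hxy hne
    by_contra hcon
    rw [not_or] at hcon
    obtain ⟨n, hn⟩ := (hsE x y).1 hxy
    have h1 : x ∉ N s A n := fun h => hcon.1 (hU ▸ N_sub s A n h)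
    have h2 : y ∉ N s A n := fun h => hcon.2 (hU ▸ N_sub s A n h)
    refine hcon.1 (hU ▸ mem_iUnion.2 ⟨n, hx, ?_, ?_, h1, ?_⟩)
    · rw [hn]; exact hy
    · rw [hn]; exact fun h => hne h.symm
    · rw [hn]; exact h2
  -- partners
  obtain ⟨p, hp⟩ : ∃ p : X → X, p = fun x => s (k1 x) x := ⟨_, rfl⟩
  have hpm : Measurable p := by rw [hp]; exact meas_diag hs hk1
  have hE' : ∀ n x, E x (s n x) := fun n x => (hsE x _).2 ⟨n, rfl⟩
  have hpE : ∀ x, E x (p x) := by intro x; rw [hp]; exact hE' _ _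
  have hpU : ∀ x ∈ U, p x ∈ U ∧ p (p x) = x ∧ p x ≠ x := by
    intro x hx
    rw [hU] at hx
    obtain ⟨i, hi⟩ := mem_iUnion.1 hx
    have h1 : k1 x = i := hk1u x i hi
    have h2 : p x = s i x := by rw [hp]; simp only; rw [h1]
    have h3 : s i x ∈ M s A i := hMinv i x hi
    have h4 : k1 (s i x) = i := hk1u _ i h3
    refine ⟨?_, ?_, ?_⟩
    · rw [h2, hU]; exact mem_iUnion.2 ⟨i, h3⟩
    · rw [h2, hp]; simp only; rw [h4, hinv]
    · rw [h2]; exact hi.2.2.1
  obtain ⟨r0, hr0⟩ : ∃ r0 : X → X, r0 = fun x => if b x < b (p x) then x else p x := ⟨_, rfl⟩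
  have hlt : MeasurableSet {x | b x < b (p x)} := measurableSet_lt hb (hb.comp hpm)
  have hr0m : Measurable r0 := by
    rw [hr0]; exact Measurable.ite hlt measurable_id hpm
  obtain ⟨A', hA'⟩ : ∃ A' : Set X, A' = {x | x ∈ U ∧ b x < b (p x)} := ⟨_, rfl⟩
  have hA'm : MeasurableSet A' := by rw [hA']; exact hUm.inter hlt
  have hr0E : ∀ x, E x (r0 x) := by
    intro x
    rw [hr0]
    simp only
    split_ifs
    · exact hE.refl x
    · exact hpE x
  have hr0A : ∀ x ∈ U, r0 x ∈ A' := by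
    intro x hx
    obtain ⟨h1, h2, h3⟩ := hpU x hx
    rw [hr0, hA']
    simp only
    split_ifs with h
    · exact ⟨hx, h⟩
    · refine ⟨h1, ?_⟩
      rw [h2]
      exact lt_of_le_of_ne (not_lt.1 h) fun h4 => h3 (hbi h4)
  obtain ⟨k2, hk2, hk2D, -⟩ := least (fun k => (s k) ⁻¹' U) fun k => (hs k) hUm
  obtain ⟨r, hr⟩ : ∃ r : X → X, r = fun x => if x ∈ U then r0 x else r0 (s (k2 x) x) := ⟨_, rfl⟩
  have hrm : Measurable r := by
    rw [hr]
    exact Measurable.ite hUm hr0m (hr0m.comp (meas_diag hs hk2))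
  have hrU : ∀ x ∈ U, r x = r0 x := by
    intro x hx
    rw [hr]
    simp only
    rw [if_pos hx]
  refine ⟨A', r, hA'm, hrm, ?_, ?_, ?_, ?_⟩
  · intro x hx
    rw [hA'] at hx
    exact hUA hx.1
  · intro x hx
    by_cases hxU : x ∈ U
    · rw [hrU x hxU]
      exact ⟨hr0A x hxU, hr0E x⟩
    · have h1 : ∃ k, s k x ∈ U := by
        obtain ⟨y, hy, hyx⟩ := ((hinf x hx).diff (finite_singleton x)).nonempty
        have hne : x ≠ y := fun h => hyx (by rw [h]; exact mem_singleton y)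
        obtain ⟨n, hn⟩ := (hsE x y).1 hy.2
        rcases hone x y hx hy.1 hy.2 hne with h | h
        · exact absurd h hxU
        · exact ⟨n, by rw [hn]; exact h⟩
      have h2 : s (k2 x) x ∈ U := hk2D x h1
      have h3 : r x = r0 (s (k2 x) x) := by
        rw [hr]
        simp only
        rw [if_neg hxU]
      rw [h3]
      exact ⟨hr0A _ h2, hE.trans (hE' _ _) (hr0E _)⟩
  · intro y hy
    have hyU : y ∈ U := by rw [hA'] at hy; exact hy.1
    have hsubs : ({x | x ∈ A ∧ x ∉ U ∧ E x y} : Set X).Subsingleton := by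
      rintro x ⟨h1, h2, h3⟩ x' ⟨h1', h2', h3'⟩
      by_contra hne
      rcases hone x x' h1 h1' (hE.trans h3 (hE.symm h3')) hne with h | h
      · exact h2 h
      · exact h2' h
    refine (((finite_singleton y).union (finite_singleton (p y))).union hsubs.finite).subset ?_
    rintro x ⟨hx, hxy⟩
    by_cases hxU : x ∈ U
    · left
      rw [hrU x hxU, hr0] at hxy
      simp only at hxy
      split_ifs at hxy with h
      · left; exact hxy
      · right
        rw [mem_singleton_iff, ← hxy]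
        exact (hpU x hxU).2.1.symm
    · right
      refine ⟨hx, hxU, ?_⟩
      have h3 : r x = r0 (s (k2 x) x) := by
        rw [hr]
        simp only
        rw [if_neg hxU]
      rw [← hxy, h3]
      exact hE.trans (hE' _ _) (hr0E _)
  · intro y hy
    rw [hA'] at hy
    obtain ⟨h1, h2, h3⟩ := hpU y hy.1
    refine ⟨p y, hUA h1, ?_, ?_⟩
    · intro h
      rw [hA'] at h
      have := h.2
      rw [h2] at this
      exact lt_asymm this hy.2
    · rw [hrU _ h1, hr0]
      simp only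
      rw [if_neg]
      · exact h2
      · rw [h2]; exact not_lt.2 hy.2.le

/-- the decreasing sequence -/
theorem seq [StandardBorelSpace X] {s : ℕ → X → X}
    (hs : ∀ n, Measurable (s n)) (hinv : ∀ n x, s n (s n x) = x)
    {E : X → X → Prop} (hE : Equivalence E) (hsE : ∀ x y, E x y ↔ ∃ n, s n x = y)
    (hinf : ∀ x, {y | E x y}.Infinite) {b : X → ℝ} (hb : Measurable b)
    (hbi : Function.Injective b) :
    ∃ (A : ℕ → Set X) (r : ℕ → X → X), A 0 = univ ∧ (∀ n, MeasurableSet (A n)) ∧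
      (∀ n, Measurable (r n)) ∧ (∀ n, A (n + 1) ⊆ A n) ∧
      (∀ n, ∀ x ∈ A n, r n x ∈ A (n + 1) ∧ E x (r n x)) ∧
      (∀ n, ∀ y ∈ A (n + 1), {x | x ∈ A n ∧ r n x = y}.Finite) ∧
      ∀ n, ∀ y ∈ A (n + 1), ∃ x, x ∈ A n ∧ x ∉ A (n + 1) ∧ r n x = y := by
  classical
  let S := {A : Set X // MeasurableSet A ∧ ∀ x ∈ A, {y | y ∈ A ∧ E x y}.Infinite}
  have h := fun a : S => step hb hbi hs hinv hE hsE a.1 a.2.1 a.2.2
  choose nx rr h1 h2 h3 h4 h5 h6 using h
  have hnx : ∀ a : S, MeasurableSet (nx a) ∧ ∀ x ∈ nx a, {y | y ∈ nx a ∧ E x y}.Infinite := by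
    intro a
    refine ⟨h1 a, fun x hx hfin => ?_⟩
    refine a.2.2 x (h3 a hx) ?_
    refine (hfin.biUnion (t := fun z => {x | x ∈ a.1 ∧ rr a x = z})
      fun z hz => h5 a z hz.1).subset ?_
    rintro y ⟨hy, hxy⟩
    obtain ⟨h7, h8⟩ := h4 a y hy
    exact mem_biUnion (x := rr a y) ⟨h7, hE.trans hxy h8⟩ ⟨hy, rfl⟩
  let sq : ℕ → S := fun n => Nat.rec ⟨univ, MeasurableSet.univ, fun x _ => by
    simpa using hinf x⟩ (fun _ a => ⟨nx a, hnx a⟩) n
  refine ⟨fun n => (sq n).1, fun n => rr (sq n), rfl, fun n => (sq n).2.1, fun n => h2 _,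
    fun n => h3 _, fun n => h4 _, fun n => h5 _, fun n => h6 _⟩

theorem t_BC : Pool.Agent.R838.KS.S_BC := by
  classical
  intro X _ _ s hs hinv E hE hsE hinf
  obtain ⟨b, hbe⟩ := MeasureTheory.exists_measurableEmbedding_real X
  have hb := hbe.measurable
  have hbi := hbe.injective
  obtain ⟨A, r, hA0, hAm, hrm, hsub, h1, h2, h3⟩ := seq hs hinv hE hsE hinf hb hbi
  have hanti : Antitone A := antitone_nat_of_succ_le hsub
  -- sections of `r n`
  have hc : ∀ n, ∃ c : X → X, Measurable c ∧ ∀ y ∈ A (n + 1), c y ∈ A n ∧ c y ∉ A (n + 1) ∧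
      r n (c y) = y ∧ E y (c y) := by
    intro n
    obtain ⟨k, hk, hkD, -⟩ := least
      (fun k => {y | s k y ∈ A n ∧ s k y ∉ A (n + 1) ∧ r n (s k y) = y})
      (fun k => ((hs k) (hAm n)).inter (((hs k) (hAm (n + 1)).compl).inter
        (meas_ne hb hbi ((hrm n).comp (hs k)) measurable_id)))
    refine ⟨fun y => s (k y) y, meas_diag hs hk, fun y hy => ?_⟩
    have h4 : ∃ k, y ∈ {y | s k y ∈ A n ∧ s k y ∉ A (n + 1) ∧ r n (s k y) = y} := by
      obtain ⟨x, hx1, hx2, hx3⟩ := h3 n y hy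
      have h5 : E y x := by
        have := (h1 n x hx1).2
        rw [hx3] at this
        exact hE.symm this
      obtain ⟨k, hk⟩ := (hsE y x).1 h5
      exact ⟨k, by rw [mem_setOf_eq, hk]; exact ⟨hx1, hx2, hx3⟩⟩
    obtain ⟨h5, h6, h7⟩ := hkD y h4
    exact ⟨h5, h6, h7, (hsE _ _).2 ⟨_, rfl⟩⟩
  choose c hcm hc1 using hc
  obtain ⟨I, hI⟩ : ∃ I : Set X, I = ⋂ n, A n := ⟨_, rfl⟩
  have hIm : MeasurableSet I := by rw [hI]; exact MeasurableSet.iInter hAm
  have hIA : ∀ n, I ⊆ A n := fun n => by rw [hI]; exact iInter_subset _ n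
  obtain ⟨ρ0, hρ0, hρ0D, hρ0m⟩ := least (fun n => (A (n + 1))ᶜ) fun n => (hAm _).compl
  obtain ⟨ρ, hρ⟩ : ∃ ρ : X → ℕ, ρ = fun x => if x ∈ I then 0 else ρ0 x := ⟨_, rfl⟩
  have hρm : Measurable ρ := by rw [hρ]; exact Measurable.ite hIm measurable_const hρ0
  have hρI : ∀ x ∈ I, ρ x = 0 := by
    intro x hx
    rw [hρ]
    simp only
    rw [if_pos hx]
  have hρn : ∀ n x, x ∈ A n → x ∉ A (n + 1) → ρ x = n := by
    intro n x hx hx'
    have hxI : x ∉ I := fun h => hx' (hIA _ h)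
    rw [hρ]
    simp only
    rw [if_neg hxI]
    refine le_antisymm (hρ0m x n hx') ?_
    have h4 : x ∉ A (ρ0 x + 1) := hρ0D x ⟨n, hx'⟩
    by_contra h5
    rw [not_le] at h5
    exact h4 (hanti h5 hx)
  have hρc : ∀ n x, ρ x = n → x ∈ I ∨ (x ∈ A n ∧ x ∉ A (n + 1)) := by
    intro n x hx
    by_cases hxI : x ∈ I
    · exact Or.inl hxI
    · right
      rw [hρ] at hx
      simp only at hx
      rw [if_neg hxI] at hx
      have hex : ∃ m, x ∈ (A (m + 1))ᶜ := by
        by_contra hcon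
        push Not at hcon
        apply hxI
        rw [hI]
        refine mem_iInter.2 fun m => ?_
        have := hcon m
        rw [mem_compl_iff, not_not] at this
        exact hsub m this
      have h4 := hρ0D x hex
      rw [hx] at h4
      refine ⟨?_, h4⟩
      rcases Nat.eq_zero_or_pos n with h5 | h5
      · rw [h5, hA0]; exact mem_univ x
      · by_contra h6
        have h7 : n - 1 + 1 = n := Nat.sub_add_cancel h5
        have h8 := hρ0m x (n - 1) (by rw [mem_compl_iff, h7]; exact h6)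
        omega
  -- the maps from level to level
  obtain ⟨h, hh⟩ : ∃ h : ℕ → X → X, h = fun n x => if x ∈ I then c (n + 1) x else
      if r n x ∈ A (n + 2) then c (n + 1) (r n x) else r n x := ⟨_, rfl⟩
  have hhm : ∀ n, Measurable (h n) := by
    intro n
    rw [hh]
    refine Measurable.ite hIm (hcm _) (Measurable.ite ((hrm n) (hAm _)) ((hcm _).comp (hrm n))
      (hrm n))
  have hhI : ∀ n x, x ∈ I → h n x = c (n + 1) x := by
    intro n x hx
    rw [hh]
    simp only
    rw [if_pos hx]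
  have hh1 : ∀ n x, x ∉ I → r n x ∈ A (n + 2) → h n x = c (n + 1) (r n x) := by
    intro n x hx hx'
    rw [hh]
    simp only
    rw [if_neg hx, if_pos hx']
  have hh2 : ∀ n x, x ∉ I → r n x ∉ A (n + 2) → h n x = r n x := by
    intro n x hx hx'
    rw [hh]
    simp only
    rw [if_neg hx, if_neg hx']
  have H1 : ∀ n x, ρ x = n → ρ (h n x) = n + 1 ∧ E x (h n x) := by
    intro n x hx
    by_cases hxI : x ∈ I
    · rw [hhI n x hxI]
      obtain ⟨h4, h5, -, h6⟩ := hc1 (n + 1) x (hIA _ hxI)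
      exact ⟨hρn _ _ h4 h5, h6⟩
    · rcases hρc n x hx with h4 | ⟨h4, h5⟩
      · exact absurd h4 hxI
      obtain ⟨h6, h7⟩ := h1 n x h4
      by_cases h8 : r n x ∈ A (n + 2)
      · rw [hh1 n x hxI h8]
        obtain ⟨h9, h10, -, h11⟩ := hc1 (n + 1) (r n x) h8
        exact ⟨hρn _ _ h9 h10, hE.trans h7 h11⟩
      · rw [hh2 n x hxI h8]
        exact ⟨hρn _ _ h6 h8, h7⟩
  have H2 : ∀ n y, ρ y = n + 1 → {x | ρ x = n ∧ h n x = y}.Finite ∧
      {x | ρ x = n ∧ h n x = y}.Nonempty := by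
    intro n y hy
    have hyA : y ∈ A (n + 1) ∧ y ∉ A (n + 2) := by
      rcases hρc (n + 1) y hy with h4 | h4
      · rw [hρI y h4] at hy
        exact absurd hy (Nat.succ_ne_zero n).symm
      · exact h4
    constructor
    · have h5 : r (n + 1) y ∈ A (n + 1) := hsub _ (h1 (n + 1) y hyA.1).1
      refine (((h2 n y hyA.1).union (h2 n _ h5)).union (finite_singleton (r (n + 1) y))).subset ?_
      rintro x ⟨hx, hxy⟩
      by_cases hxI : x ∈ I
      · right
        rw [hhI n x hxI] at hxy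
        obtain ⟨-, -, h6, -⟩ := hc1 (n + 1) x (hIA _ hxI)
        rw [mem_singleton_iff, ← hxy, h6]
      · left
        rcases hρc n x hx with h4 | ⟨h4, -⟩
        · exact absurd h4 hxI
        by_cases h8 : r n x ∈ A (n + 2)
        · right
          rw [hh1 n x hxI h8] at hxy
          obtain ⟨-, -, h6, -⟩ := hc1 (n + 1) (r n x) h8
          exact ⟨h4, by rw [← hxy, h6]⟩
        · left
          rw [hh2 n x hxI h8] at hxy
          exact ⟨h4, hxy⟩
    · obtain ⟨x, hx1, hx2, hx3⟩ := h3 n y hyA.1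
      have hxI : x ∉ I := fun h => hx2 (hIA _ h)
      refine ⟨x, hρn n x hx1 hx2, ?_⟩
      rw [hh2 n x hxI (by rw [hx3]; exact hyA.2), hx3]
  let g : ℕ → X → X := fun n => Nat.rec id (fun n f => h n ∘ f) n
  have hg : ∀ n, g (n + 1) = h n ∘ g n := fun n => rfl
  have G1 : ∀ n x, ρ x = 0 → ρ (g n x) = n ∧ E x (g n x) := by
    intro n x hx
    induction n with
    | zero => exact ⟨hx, hE.refl x⟩
    | succ n ih =>
      rw [hg]
      obtain ⟨h4, h5⟩ := H1 n (g n x) ih.1
      exact ⟨h4, hE.trans ih.2 h5⟩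
  refine ⟨ρ, g, hρm, ?_, G1, ?_⟩
  · intro n
    induction n with
    | zero => exact measurable_id
    | succ n ih => rw [hg]; exact (hhm n).comp ih
  · intro n
    induction n with
    | zero =>
      intro y hy
      refine ⟨(finite_singleton y).subset fun x hx => hx.2, ⟨y, hy, rfl⟩⟩
    | succ n ih =>
      intro y hy
      obtain ⟨h4, z, hz1, hz2⟩ := H2 n y hy
      constructor
      · refine (h4.biUnion (t := fun z => {x | ρ x = 0 ∧ g n x = z})
          fun z hz => (ih z hz.1).1).subset ?_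
        rintro x ⟨hx, hxy⟩
        rw [hg] at hxy
        exact mem_biUnion (x := g n x) ⟨(G1 n x hx).1, hxy⟩ ⟨hx, rfl⟩
      · obtain ⟨x, hx1, hx2⟩ := (ih z hz1).2
        refine ⟨x, hx1, ?_⟩
        rw [hg, Function.comp_apply, hx2, hz2]

end Pool.Agent.U958.KS.BC
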